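import Pool.Agent.H22.FOG.All

/-! # Coexistence on the phase curve of the lower tail problem

`phaseRatio H p` is the infimum of the ratios `c` in `(0, 1]` such that the constant graphon `c p`
is a minimizer (the curve of the hand-in `PhaseCurve`). On the curve the constant graphon is a
minimizer, but never the unique one; constants are isolated; the curve is strictly monotone for
non-bipartite `H`; it ends at `1` if the girth of `H` is odd, and below `1` otherwise. -/

open MeasureTheory unitInterval Set Filter Topology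

namespace Pool.Agent.Results.MP_f0e2ba_pr.Coexistence

open Pool.Agent.H99.LowerTail Pool.FOT

theorem result (V : Type) [Fintype V] (H : SimpleGraph V) (hH : H ≠ ⊥) :
    (∀ p ∈ Ioo (0 : ℝ) 1, phaseRatio H p < 1) ∧
    (∀ p ∈ Ioo (0 : ℝ) 1, 0 < phaseRatio H p → IsMinimizer H p (phaseRatio H p * p) ∧
      ¬ IsUniqueMinimizer H p (phaseRatio H p * p)) ∧
    (∀ p q1 : ℝ, 0 < q1 → q1 ≤ p → p < 1 → ∃ ε > 0, ∀ q, q1 ≤ q → q ≤ p → ∀ W : Graphon,
      homDensity H W ≤ q ^ numEdges H → cost p W ≤ relEnt p q →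
      (∀ᵐ z : I × I, W z.1 z.2 = q) ∨ ε < ∫ z : I × I, (W z.1 z.2 - q) ^ 2) ∧
    (¬ H.Colorable 2 → (∀ p ∈ Ioo (0 : ℝ) 1, 0 < phaseRatio H p) ∧
      StrictMonoOn (phaseRatio H) (Ioo 0 1) ∧
      StrictAntiOn (fun p => (1 - p) * phaseRatio H p) (Ioo 0 1)) ∧
    (Odd H.girth → Tendsto (phaseRatio H) (𝓝[<] 1) (𝓝 1)) ∧
    (Even H.girth → ∃ q0 < 1, ∀ p ∈ Ioo (0 : ℝ) 1, phaseRatio H p * p ≤ q0) :=
  h_fin V H hH

end Pool.Agent.Results.MP_f0e2ba_pr.Coexistence
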