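import Pool.Agent.H99.Cells0
import Pool.Agent.H99.Cells1
import Pool.Agent.H99.Cells2
import Pool.Agent.H99.Cells3
import Pool.Agent.H99.Cells4
import Pool.Agent.H99.Cells5
import Pool.Agent.H99.Cells6
import Pool.Agent.H99.Cells7
import Pool.Agent.H99.Cells8
import Pool.Agent.H99.Cells9

open Pool.Agent.H99.LowerTail

namespace Pool.Agent.Results.MP_f0e2ba_pr.K3Boundary

/-- **The lower tail phase diagram of the triangle for `0.64 ≤ p ≤ 0.895`.** The constant graphon
`q` is a minimizer if and only if no two-block graphon (value `a` inside two blocks of measure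
`1/2` and `b` between them, triangle density `(a³ + 3ab²)/4`) beats it, and it is the unique
minimizer if and only if no nonconstant two-block graphon ties with it. -/
theorem result (p q : ℝ) (hp : 16 / 25 ≤ p) (hp' : p ≤ 179 / 200) (hq0 : 0 < q) (hqp : q ≤ p) :
    (IsMinimizer (⊤ : SimpleGraph (Fin 3)) p q ↔
      ∀ a b : ℝ, 0 ≤ a → a ≤ 1 → 0 ≤ b → b ≤ 1 → a ^ 3 + 3 * a * b ^ 2 ≤ 4 * q ^ 3 →
        2 * relEnt p q ≤ relEnt p a + relEnt p b) ∧
    (IsUniqueMinimizer (⊤ : SimpleGraph (Fin 3)) p q ↔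
      ∀ a b : ℝ, 0 ≤ a → a ≤ 1 → 0 ≤ b → b ≤ 1 → a ^ 3 + 3 * a * b ^ 2 ≤ 4 * q ^ 3 →
        ¬ (a = q ∧ b = q) → 2 * relEnt p q < relEnt p a + relEnt p b) := by
  have hg : GoodOn ((6399 / 10000 : ℚ) : ℝ) ((179 / 200 : ℚ) : ℝ) :=
    good0 |>.trans <| good1 |>.trans <| good2 |>.trans <| good3 |>.trans <| good4 |>.trans <|
    good5 |>.trans <| good6 |>.trans <| good7 |>.trans <| good8 |>.trans <| good9
  refine diagram_of_good (by linarith) (fun q hq0 hqp hTB => hg p q ?_ ?_ hq0 hqp hTB) hq0 hqp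
  · push_cast
    linarith
  · push_cast
    linarith

end Pool.Agent.Results.MP_f0e2ba_pr.K3Boundary
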