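import Pool.Agent.H99.BndA0
import Pool.Agent.H99.BndA1
import Pool.Agent.H99.BndA2
import Pool.Agent.H99.BndA3
import Pool.Agent.H99.BndA4
import Pool.Agent.H99.BndA5
import Pool.Agent.H99.BndA6
import Pool.Agent.H99.BndA7
import Pool.Agent.H99.BndB0
import Pool.Agent.H99.BndB1
import Pool.Agent.H99.BndB2
import Pool.Agent.H99.BndB3
import Pool.Agent.H99.BndB4
import Pool.Agent.H99.BndC0
import Pool.Agent.H99.BndC1
import Pool.Agent.H99.BndC2
import Pool.Agent.H99.BndC3
import Pool.Agent.H99.BndD0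
import Pool.Agent.H99.BndD1
import Pool.Agent.H99.BndD2

open Pool.Agent.H99.LowerTail

namespace Pool.Agent.Results.MP_f0e2ba_pr.K3Bounds

/-- **The lower tail phase diagram of the triangle, near-determination.** For `0 < p ≤ 0.64` and
for `0.895 < p ≤ 0.98`, explicit polynomial curves above which the constant graphon is the unique
minimizer and below which it is not a minimizer. -/
theorem result (p q : ℝ) (hq0 : 0 < q) (hqp : q ≤ p) :
    (p ≤ 16 / 25 →
      ((547 / 2500 + 11 / 200 * p + 41 / 500 * p ^ 3) * p ≤ q →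
        IsUniqueMinimizer (⊤ : SimpleGraph (Fin 3)) p q) ∧
      (q ≤ (2087 / 10000 + 69 / 1000 * p + 19 / 250 * p ^ 3) * p →
        ¬ IsMinimizer (⊤ : SimpleGraph (Fin 3)) p q)) ∧
    (179 / 200 < p → p ≤ 49 / 50 →
      ((35193 / 100000 + 63 / 100 * (p - 179 / 200) + 21 / 10 * (p - 179 / 200) ^ 2 +
          7800 * (p - 179 / 200) ^ 5) * p ≤ q →
        IsUniqueMinimizer (⊤ : SimpleGraph (Fin 3)) p q) ∧
      (q ≤ (17551 / 50000 + 27 / 50 * (p - 179 / 200) + 19 / 5 * (p - 179 / 200) ^ 2 +
          40000 * (p - 179 / 200) ^ 6) * p →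
        ¬ IsMinimizer (⊤ : SimpleGraph (Fin 3)) p q)) := by
  have hp0 : 0 < p := hq0.trans_le hqp
  refine ⟨fun hp => ⟨fun h => ?_, fun h => ?_⟩, fun hp1 hp2 => ⟨fun h => ?_, fun h => ?_⟩⟩
  · refine (upA0 |>.trans <| upA1 |>.trans <| upA2 |>.trans <| upA3 |>.trans <| upA4 |>.trans <|
      upA5 |>.trans <| upA6 |>.trans <| upA7) p q ?_ ?_ hqp ?_
    · push_cast; linarith
    · push_cast; linarith
    · unfold polyC polyR
      push_cast
      refine le_trans (le_of_eq ?_) h
      ring
  · refine (loC0 |>.trans <| loC1 |>.trans <| loC2 |>.trans <| loC3) p q ?_ ?_ hq0 ?_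
    · push_cast; linarith
    · push_cast; linarith
    · unfold polyC polyR
      push_cast
      refine h.trans (le_of_eq ?_)
      ring
  · refine (upB0 |>.trans <| upB1 |>.trans <| upB2 |>.trans <| upB3 |>.trans <| upB4) p q
      ?_ ?_ hqp ?_
    · push_cast; linarith
    · push_cast; linarith
    · unfold polyC polyR
      push_cast
      refine le_trans (le_of_eq ?_) h
      ring
  · refine (loD0 |>.trans <| loD1 |>.trans <| loD2) p q ?_ ?_ hq0 ?_
    · push_cast; linarith
    · push_cast; linarith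
    · unfold polyC polyR
      push_cast
      refine h.trans (le_of_eq ?_)
      ring

end Pool.Agent.Results.MP_f0e2ba_pr.K3Bounds
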