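import Pool.Agent.H99.LowerTailBasic

open MeasureTheory unitInterval Set

namespace Pool.Agent.Results.MP_f0e2ba_pr.PhaseCurve

open Pool.Agent.H99.LowerTail

variable {V : Type} [Fintype V] (H : SimpleGraph V)

/-- The ratios `c` for which `(p, c p)` is replica symmetric. -/
def goodSet (p : ℝ) : Set ℝ := {c | 0 < c ∧ c ≤ 1 ∧ IsMinimizer H p (c * p)}

lemma one_mem {p : ℝ} (hp0 : 0 < p) (hp1 : p < 1) : (1 : ℝ) ∈ goodSet H p :=
  ⟨one_pos, le_rfl, by rw [one_mul]; exact (isUniqueMinimizer_self H hp0 hp1).1⟩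

lemma bddBelow_goodSet (p : ℝ) : BddBelow (goodSet H p) := ⟨0, fun _ hc => hc.1.le⟩

lemma rho_nonneg (p : ℝ) : 0 ≤ sInf (goodSet H p) := Real.sInf_nonneg fun _ hc => hc.1.le

lemma rho_le_one {p : ℝ} (hp0 : 0 < p) (hp1 : p < 1) : sInf (goodSet H p) ≤ 1 :=
  csInf_le (bddBelow_goodSet H p) (one_mem H hp0 hp1)

lemma unique_of_rho_lt {p q : ℝ} (hq0 : 0 < q) (hqp : q ≤ p) (hp1 : p < 1)
    (h : sInf (goodSet H p) * p < q) : IsUniqueMinimizer H p q := by
  have hp0 : 0 < p := by linarith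
  have h1 : sInf (goodSet H p) < q / p := by rwa [lt_div_iff₀ hp0]
  obtain ⟨c, hc, hcq⟩ := exists_lt_of_csInf_lt ⟨1, one_mem H hp0 hp1⟩ h1
  refine unique_of_lt H hp1 (mul_pos hc.1 hp0) ?_ hqp hc.2.2
  rwa [lt_div_iff₀ hp0] at hcq

lemma isMinimizer_iff {p q : ℝ} (hq0 : 0 < q) (hqp : q ≤ p) (hp1 : p < 1) :
    IsMinimizer H p q ↔ sInf (goodSet H p) * p ≤ q := by
  have hp0 : 0 < p := by linarith
  constructor
  · intro h
    have h1 : q / p ∈ goodSet H p :=
      ⟨by positivity, (div_le_one hp0).2 hqp, by rwa [div_mul_cancel₀ _ hp0.ne']⟩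
    have h2 := csInf_le (bddBelow_goodSet H p) h1
    rwa [le_div_iff₀ hp0] at h2
  · intro h
    rcases hqp.eq_or_lt with rfl | hlt
    · exact (isUniqueMinimizer_self H hp0 hp1).1
    · refine isMinimizer_of_forall_gt H hq0 hlt hp1 fun q' hq' hq'p => ?_
      exact (unique_of_rho_lt H (hq0.trans hq') hq'p hp1 (h.trans_lt hq')).1

lemma rho_mono {p p' : ℝ} (hp0 : 0 < p) (hpp : p ≤ p') (hp'1 : p' < 1) :
    sInf (goodSet H p) ≤ sInf (goodSet H p') := by
  rcases hpp.eq_or_lt with rfl | hlt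
  · exact le_rfl
  refine csInf_le_csInf (bddBelow_goodSet H p) ⟨1, one_mem H (hp0.trans hlt) hp'1⟩ ?_
  intro c hc
  exact ⟨hc.1, hc.2.1, (unique_of_lt_p H hp0 hlt hp'1 hc.1 hc.2.1 hc.2.2).1⟩

lemma rho_anti {p p' : ℝ} (hp0 : 0 < p) (hpp : p ≤ p') (hp'1 : p' < 1) :
    (1 - p') * sInf (goodSet H p') ≤ (1 - p) * sInf (goodSet H p) := by
  rcases hpp.eq_or_lt with rfl | hlt
  · exact le_rfl
  have hp1 : p < 1 := by linarith
  have h1p : 0 < 1 - p := by linarith
  have h1p' : 0 < 1 - p' := by linarith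
  rw [mul_comm (1 - p), ← div_le_iff₀ h1p]
  refine le_csInf ⟨1, one_mem H hp0 hp1⟩ fun c hc => ?_
  rw [div_le_iff₀ h1p]
  rcases le_or_gt (c * (1 - p) / (1 - p')) 1 with h | h
  · have hmem : c * (1 - p) / (1 - p') ∈ goodSet H p' := by
      have hcpos : 0 < c * (1 - p) / (1 - p') := div_pos (mul_pos hc.1 h1p) h1p'
      have hc' : c < c * (1 - p) / (1 - p') := by
        rw [lt_div_iff₀ h1p']
        nlinarith [hc.1]
      have h2 : c * p < c * (1 - p) / (1 - p') * p' := by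
        have := hc.1
        nlinarith
      refine ⟨hcpos, h, (unique_of_scale H hp0 hpp hp'1 (mul_pos hc.1 hp0) h2 (by nlinarith)
        ?_ hc.2.2).1⟩
      have e : c * (1 - p) / (1 - p') * p' * (p * (1 - p')) = c * p * (p' * (1 - p)) := by
        field_simp
      exact e.ge
    have h2 := csInf_le (bddBelow_goodSet H p') hmem
    rw [le_div_iff₀ h1p'] at h2
    linarith
  · have h2 := rho_le_one H (hp0.trans hlt) hp'1
    rw [lt_div_iff₀ h1p'] at h
    nlinarith

lemma rho_continuousOn : ContinuousOn (fun p => sInf (goodSet H p)) (Ioo 0 1) := by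
  intro p hp
  have hp1 : 0 < 1 - p := by linarith [hp.2]
  -- squeeze between the two one-sided bounds
  have hbound : ∀ x ∈ Ioo (0 : ℝ) 1,
      |sInf (goodSet H x) - sInf (goodSet H p)| ≤ |x - p| / (1 - x) + |x - p| / (1 - p) := by
    intro x hx
    have hx1 : 0 < 1 - x := by linarith [hx.2]
    rcases le_total x p with h | h
    · have h1 := rho_mono H hx.1 h hp.2
      have h2 := rho_anti H hx.1 h hp.2
      have h3 := rho_le_one H hx.1 hx.2
      rw [abs_of_nonpos (by linarith), abs_of_nonpos (by linarith : x - p ≤ 0)]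
      have h4 : 0 ≤ -(x - p) / (1 - x) := div_nonneg (by linarith) hx1.le
      have h5 : -(sInf (goodSet H x) - sInf (goodSet H p)) ≤ -(x - p) / (1 - p) := by
        rw [le_div_iff₀ hp1]
        nlinarith
      linarith
    · have h1 := rho_mono H hp.1 h hx.2
      have h2 := rho_anti H hp.1 h hx.2
      have h3 := rho_le_one H hp.1 hp.2
      rw [abs_of_nonneg (by linarith), abs_of_nonneg (by linarith : 0 ≤ x - p)]
      have h4 : 0 ≤ (x - p) / (1 - p) := div_nonneg (by linarith) hp1.le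
      have h5 : sInf (goodSet H x) - sInf (goodSet H p) ≤ (x - p) / (1 - x) := by
        rw [le_div_iff₀ hx1]
        nlinarith
      linarith
  have hlim : Filter.Tendsto (fun x : ℝ => |x - p| / (1 - x) + |x - p| / (1 - p))
      (nhdsWithin p (Ioo 0 1)) (nhds 0) := by
    have hc : ContinuousAt (fun x : ℝ => |x - p| / (1 - x) + |x - p| / (1 - p)) p := by
      refine ContinuousAt.add (ContinuousAt.div ?_ ?_ hp1.ne') (ContinuousAt.div ?_ ?_ hp1.ne') <;>
        fun_prop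
    have h0 := hc.tendsto
    simp only [sub_self, abs_zero, zero_div, add_zero] at h0
    exact h0.mono_left nhdsWithin_le_nhds
  rw [ContinuousWithinAt, tendsto_iff_dist_tendsto_zero]
  refine squeeze_zero' (Filter.Eventually.of_forall fun x => dist_nonneg) ?_ hlim
  filter_upwards [self_mem_nhdsWithin] with x hx
  rw [Real.dist_eq]
  exact hbound x hx

/-- **The lower tail phase diagram of any graph is the region above a monotone curve.** -/
theorem result (V : Type) [Fintype V] (H : SimpleGraph V) :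
    ∃ ρ : ℝ → ℝ, (∀ p ∈ Ioo (0 : ℝ) 1, 0 ≤ ρ p ∧ ρ p ≤ 1) ∧
      MonotoneOn ρ (Ioo 0 1) ∧ AntitoneOn (fun p => (1 - p) * ρ p) (Ioo 0 1) ∧
      ContinuousOn ρ (Ioo 0 1) ∧
      ∀ p q : ℝ, 0 < q → q ≤ p → p < 1 →
        (IsMinimizer H p q ↔ ρ p * p ≤ q) ∧ (ρ p * p < q → IsUniqueMinimizer H p q) := by
  refine ⟨fun p => sInf (goodSet H p), fun p hp => ⟨rho_nonneg H p, rho_le_one H hp.1 hp.2⟩,
    fun p hp p' hp' hpp => rho_mono H hp.1 hpp hp'.2,
    fun p hp p' hp' hpp => rho_anti H hp.1 hpp hp'.2, rho_continuousOn H, ?_⟩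
  intro p q hq0 hqp hp1
  exact ⟨isMinimizer_iff H hq0 hqp hp1, unique_of_rho_lt H hq0 hqp hp1⟩

end Pool.Agent.Results.MP_f0e2ba_pr.PhaseCurve
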